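import Pool.Agent.W2helper37.SG.Stm3
import Pool.Agent.W2helper82.SG.Tra

/-!
# Project SG part 2, piece FMB: the bilinear form on the realisation
-/

set_option autoImplicit false
set_option linter.unusedSectionVars false
set_option linter.unusedSimpArgs false
set_option backward.isDefEq.respectTransparency false
set_option backward.defeqAttrib.useBackward true

open CategoryTheory Limits MonoidalCategory
open Pool.Agent.Y112.SR Pool.Agent.Y112.SC Pool.Agent.W2helper37.SG
open Pool.Agent.Y112.KD hiding cc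

namespace Pool.Agent.W2helper6.SG

universe v u w

open scoped TensorProduct
open Functor.LaxMonoidal Functor.OplaxMonoidal

section

variable {C : Type u} [Category.{v} C] [Preadditive C] [MonoidalCategory C] [SymmetricCategory C]
  [RightRigidCategory C] {K : Type w} [Field K] (R : SuperRealisation C K) {M L : C}

/-- the realisation of the form -/
noncomputable def fb (b : M ⊗ M ⟶ L) : R.H.obj M ⊗ R.H.obj M ⟶ R.H.obj L :=
  μ R.H M M ≫ R.H.map b

/-- the realisation of the dual form -/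
noncomputable def fc (c : L ⟶ M ⊗ M) : R.H.obj L ⟶ R.H.obj M ⊗ R.H.obj M :=
  R.H.map c ≫ δ R.H M M

lemma map_bc (b : M ⊗ M ⟶ L) (c : L ⟶ M ⊗ M) :
    R.H.map (b ≫ c) = δ R.H M M ≫ (fb R b ≫ fc R c) ≫ μ R.H M M := by
  simp only [fb, fc, Functor.map_comp, Category.assoc, Functor.Monoidal.δ_μ_assoc,
    Functor.Monoidal.δ_μ, Category.comp_id]

lemma zig_real (b : M ⊗ M ⟶ L) (c : L ⟶ M ⊗ M)
    (h : M ◁ c ≫ (α_ M M M).inv ≫ b ▷ M = (β_ M L).hom) :
    R.H.obj M ◁ fc R c ≫ (α_ _ _ _).inv ≫ fb R b ▷ R.H.obj M =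
      μ R.H M L ≫ R.H.map (β_ M L).hom ≫ δ R.H L M := by
  rw [← h]
  simp only [fb, fc, Functor.map_comp, Functor.Monoidal.map_whiskerLeft,
    Functor.Monoidal.map_whiskerRight, Functor.Monoidal.map_associator_inv, Category.assoc,
    Functor.Monoidal.μ_δ_assoc, Functor.Monoidal.μ_δ, comp_whiskerRight,
    MonoidalCategory.whiskerLeft_comp, Category.comp_id]

lemma braid_real (h2 : (2 : K) ≠ 0) (hL : R.par L = 𝟙 _) :
    μ R.H M L ≫ R.H.map (β_ M L).hom ≫ δ R.H L M = (β_ (R.H.obj M) (R.H.obj L)).hom := by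
  have h := R.symm M L
  rw [hL] at h
  have h3 : (𝟙 _ + R.par M ▷ R.H.obj L + R.H.obj M ◁ 𝟙 (R.H.obj L) - (R.par M ⊗ₘ 𝟙 (R.H.obj L))) =
      (2 : K) • 𝟙 (MonoidalCategoryStruct.tensorObj (R.H.obj M) (R.H.obj L)) := by
    rw [tensorHom_id, MonoidalCategory.whiskerLeft_id, two_smul]
    abel
  rw [h3, Linear.smul_comp, Category.id_comp] at h
  have h4 := congrArg (fun z => (2 : K)⁻¹ • z) h
  simp only [smul_smul, inv_mul_cancel₀ h2, one_smul] at h4
  rw [← Category.assoc, h4, Category.assoc, Functor.Monoidal.μ_δ, Category.comp_id]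

lemma fb_even (b : M ⊗ M ⟶ L) (hL : R.par L = 𝟙 _) :
    (R.par M ⊗ₘ R.par M) ≫ fb R b = fb R b := by
  rw [fb, ← Category.assoc, ← R.par_tensor, Category.assoc, ← R.par_natural, hL, Category.comp_id]

lemma fb_symm (h2 : (2 : K) ≠ 0) (b : M ⊗ M ⟶ L) (hL : R.par L = 𝟙 _)
    (hb : (β_ M M).hom ≫ b = b) :
    fb R b = R.par M ▷ R.H.obj M ≫ (β_ (R.H.obj M) (R.H.obj M)).hom ≫ fb R b := by
  have h3 : (2 : K) • fb R b = (𝟙 _ + R.par M ▷ R.H.obj M + R.H.obj M ◁ R.par M -
      (R.par M ⊗ₘ R.par M)) ≫ (β_ (R.H.obj M) (R.H.obj M)).hom ≫ fb R b := by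
    conv_lhs => rw [fb, ← hb]
    rw [Functor.map_comp, ← Category.assoc (μ R.H M M), ← Linear.smul_comp, R.symm]
    simp only [fb, Category.assoc]
  have h4 : (R.par M ⊗ₘ R.par M) ≫ (β_ (R.H.obj M) (R.H.obj M)).hom ≫ fb R b =
      (β_ (R.H.obj M) (R.H.obj M)).hom ≫ fb R b := by
    rw [BraidedCategory.braiding_naturality_assoc, fb_even R b hL]
  have h5 : R.H.obj M ◁ R.par M ≫ (β_ (R.H.obj M) (R.H.obj M)).hom ≫ fb R b =
      R.par M ▷ R.H.obj M ≫ (β_ (R.H.obj M) (R.H.obj M)).hom ≫ fb R b := by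
    have h6 : R.par M ▷ R.H.obj M ≫ (R.par M ⊗ₘ R.par M) = R.H.obj M ◁ R.par M := by
      rw [MonoidalCategory.tensorHom_def, ← Category.assoc, ← comp_whiskerRight, R.par_sq,
        id_whiskerRight, Category.id_comp]
    rw [← h6, Category.assoc, h4]
  have h7 : (2 : K) • fb R b = (2 : K) •
      (R.par M ▷ R.H.obj M ≫ (β_ (R.H.obj M) (R.H.obj M)).hom ≫ fb R b) := by
    rw [h3, Preadditive.sub_comp, Preadditive.add_comp, Preadditive.add_comp, h4, h5,
      Category.id_comp, two_smul]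
    abel
  have h8 := congrArg (fun z => (2 : K)⁻¹ • z) h7
  simpa only [smul_smul, inv_mul_cancel₀ h2, one_smul] using h8

/-- the bilinear form -/
noncomputable def bil (b : M ⊗ M ⟶ L) (φ : R.H.obj L ≃ₗ[K] K) :
    R.H.obj M →ₗ[K] R.H.obj M →ₗ[K] K :=
  TensorProduct.curry (φ.toLinearMap ∘ₗ
    ((fb R b).hom : (R.H.obj M) ⊗[K] (R.H.obj M) →ₗ[K] (R.H.obj L)))

lemma bil_apply (b : M ⊗ M ⟶ L) (φ : R.H.obj L ≃ₗ[K] K) (x y : R.H.obj M) :
    bil R b φ x y = φ ((fb R b).hom (x ⊗ₜ[K] y)) := rfl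

lemma fb_tmul (b : M ⊗ M ⟶ L) (φ : R.H.obj L ≃ₗ[K] K) (x y : R.H.obj M) :
    (fb R b).hom (x ⊗ₜ[K] y) = bil R b φ x y • φ.symm 1 := by
  apply φ.injective
  rw [map_smul, LinearEquiv.apply_symm_apply, smul_eq_mul, mul_one, bil_apply]

lemma bil_even (b : M ⊗ M ⟶ L) (hL : R.par L = 𝟙 _) (φ : R.H.obj L ≃ₗ[K] K)
    (x y : R.H.obj M) : bil R b φ ((R.par M).hom x) ((R.par M).hom y) = bil R b φ x y := by
  have h := LinearMap.congr_fun (congrArg ModuleCat.Hom.hom (fb_even R b hL)) (x ⊗ₜ[K] y)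
  rw [bil_apply, bil_apply]
  refine congrArg φ (Eq.trans ?_ h)
  rfl

lemma bil_symm (h2 : (2 : K) ≠ 0) (b : M ⊗ M ⟶ L) (hL : R.par L = 𝟙 _)
    (hb : (β_ M M).hom ≫ b = b) (φ : R.H.obj L ≃ₗ[K] K) (x y : R.H.obj M) :
    bil R b φ x y = bil R b φ y ((R.par M).hom x) := by
  have h := LinearMap.congr_fun (congrArg ModuleCat.Hom.hom (fb_symm R h2 b hL hb)) (x ⊗ₜ[K] y)
  rw [bil_apply, bil_apply]
  refine congrArg φ (Eq.trans h ?_)
  rfl

lemma exists_dual (h2 : (2 : K) ≠ 0) (b : M ⊗ M ⟶ L) (c : L ⟶ M ⊗ M) (hL : R.par L = 𝟙 _)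
    (hz : M ◁ c ≫ (α_ M M M).inv ≫ b ▷ M = (β_ M L).hom) (φ : R.H.obj L ≃ₗ[K] K)
    {ι : Type} [Fintype ι] (v : Module.Basis ι K (R.H.obj M)) :
    ∃ y : ι → R.H.obj M, (fc R c).hom (φ.symm 1) = ∑ k, v k ⊗ₜ[K] y k ∧
      ∀ x, x = ∑ k, bil R b φ x (v k) • y k := by
  classical
  let t : (R.H.obj M) ⊗[K] (R.H.obj M) := (fc R c).hom (φ.symm 1)
  refine ⟨fun k => ∑ j, (v.tensorProduct v).repr t (k, j) • v j, ?_, ?_⟩
  · have h := (v.tensorProduct v).sum_repr t
    refine h.symm.trans ?_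
    rw [Fintype.sum_prod_type]
    refine Finset.sum_congr rfl fun k _ => ?_
    rw [TensorProduct.tmul_sum]
    refine Finset.sum_congr rfl fun j _ => ?_
    rw [Module.Basis.tensorProduct_apply, TensorProduct.tmul_smul]
  · intro x
    have hy : (fc R c).hom (φ.symm 1) = ∑ k, ∑ j, (v.tensorProduct v).repr t (k, j) •
        (v k ⊗ₜ[K] v j) := by
      have h := (v.tensorProduct v).sum_repr t
      refine h.symm.trans ?_
      rw [Fintype.sum_prod_type]
      refine Finset.sum_congr rfl fun k _ => Finset.sum_congr rfl fun j _ => ?_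
      rw [Module.Basis.tensorProduct_apply]
    have hz' := (zig_real R b c hz).trans (braid_real R h2 hL)
    have h1 := LinearMap.congr_fun (congrArg ModuleCat.Hom.hom hz') (x ⊗ₜ[K] φ.symm 1)
    have e1 : (R.H.obj M ◁ fc R c).hom (x ⊗ₜ[K] φ.symm 1) =
        ∑ k, ∑ j, (v.tensorProduct v).repr t (k, j) • (x ⊗ₜ[K] (v k ⊗ₜ[K] v j)) := by
      refine (ModuleCat.MonoidalCategory.whiskerLeft_apply _ _ _ _).trans ?_
      refine (congrArg (fun z => x ⊗ₜ[K] z) hy).trans ?_
      rw [TensorProduct.tmul_sum]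
      refine Finset.sum_congr rfl fun k _ => ?_
      rw [TensorProduct.tmul_sum]
      refine Finset.sum_congr rfl fun j _ => ?_
      rw [TensorProduct.tmul_smul]
    have e2 : (R.H.obj M ◁ fc R c ≫ (α_ _ _ _).inv ≫ fb R b ▷ R.H.obj M).hom
        (x ⊗ₜ[K] φ.symm 1) = ∑ k, ∑ j, (v.tensorProduct v).repr t (k, j) •
          ((bil R b φ x (v k) • φ.symm 1) ⊗ₜ[K] v j) := by
      have e3 : (R.H.obj M ◁ fc R c ≫ (α_ _ _ _).inv ≫ fb R b ▷ R.H.obj M).hom
        (x ⊗ₜ[K] φ.symm 1) = (fb R b ▷ R.H.obj M).hom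
          ((α_ (R.H.obj M) (R.H.obj M) (R.H.obj M)).inv.hom
          ((R.H.obj M ◁ fc R c).hom (x ⊗ₜ[K] φ.symm 1))) := rfl
      rw [e3, e1]
      simp only [map_sum, map_smul]
      refine Finset.sum_congr rfl fun k _ => Finset.sum_congr rfl fun j _ => ?_
      congr 1
      have e4 : (α_ (R.H.obj M) (R.H.obj M) (R.H.obj M)).inv.hom (x ⊗ₜ[K] (v k ⊗ₜ[K] v j)) =
        (x ⊗ₜ[K] v k) ⊗ₜ[K] v j := rfl
      refine (congrArg (fb R b ▷ R.H.obj M).hom e4).trans ?_
      refine (ModuleCat.MonoidalCategory.whiskerRight_apply _ _ _ _).trans ?_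
      rw [fb_tmul R b φ]
    have e5 : (∑ k, ∑ j, (v.tensorProduct v).repr t (k, j) •
          ((bil R b φ x (v k) • φ.symm 1) ⊗ₜ[K] v j) : R.H.obj L ⊗[K] R.H.obj M) =
          φ.symm 1 ⊗ₜ[K] x := by
      refine e2.symm.trans (h1.trans ?_)
      rfl
    have e6 := congrArg (fun z => TensorProduct.lid K (R.H.obj M) (TensorProduct.map
      φ.toLinearMap LinearMap.id z)) e5
    simp only [map_sum, map_smul, TensorProduct.map_tmul, LinearMap.id_apply,
      LinearEquiv.coe_coe, LinearEquiv.apply_symm_apply, TensorProduct.lid_tmul, smul_eq_mul,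
      mul_one, one_smul] at e6
    refine e6.symm.trans ?_
    refine Finset.sum_congr rfl fun k _ => ?_
    rw [Finset.smul_sum]
    refine Finset.sum_congr rfl fun j _ => ?_
    rw [smul_comm]

end

theorem p_fmb : P_FMB.{v, u, w} := by
  intro hSYM hALT hFB C _ _ _ _ _ _ _ _ K _ R M L b c hF
  classical
  have hK := R_charZero R
  have h2 : (2 : K) ≠ 0 := two_ne_zero
  have hfin := R.finite M
  obtain ⟨φ⟩ : Nonempty (R.H.obj L ≃ₗ[K] K) := by
    have := R.finite L
    exact FiniteDimensional.nonempty_linearEquiv_of_finrank_eq (by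
      rw [hF.line, Module.finrank_self])
  obtain ⟨y0, -, hy0⟩ := exists_dual R h2 b c hF.even hF.zig φ (Module.finBasis K (R.H.obj M))
  obtain ⟨ι, _, _, v, o, σ, γ, N, hI, hs, hB⟩ := hFB hSYM hALT K (R.H.obj M) (R.par M).hom
    (bil R b φ) (by
      refine LinearMap.ext fun x => ?_
      exact LinearMap.congr_fun (congrArg ModuleCat.Hom.hom (R.par_sq M)) x)
    (bil_even R b hF.even φ) (bil_symm R h2 b hF.even hF.symm φ) (by
      intro x hx
      rw [hy0 x]
      refine Finset.sum_eq_zero fun k _ => ?_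
      rw [hx, zero_smul])
  let e : ι → ι → (R.H.obj M ⟶ R.H.obj M) :=
    fun i k => ModuleCat.ofHom ((v.coord i).smulRight (v k))
  have he : ∀ i k x, (e i k).hom x = v.coord i x • v k := fun i k x => rfl
  have hev : ∀ i k j, (e i k).hom (v j) = if j = i then v k else 0 := by
    intro i k j
    rw [he, Module.Basis.coord_apply, Module.Basis.repr_self, Finsupp.single_apply]
    split_ifs
    · rw [one_smul]
    · rw [zero_smul]
  obtain ⟨y, hy1, hy2⟩ := exists_dual R h2 b c hF.even hF.zig φ v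
  have hy : ∀ k, y k = (γ (σ k))⁻¹ • v (σ k) := by
    intro k
    have h := hy2 (v (σ k))
    simp only [hB] at h
    rw [Finset.sum_eq_single k] at h
    · rw [if_pos (hI.inv k).symm] at h
      rw [h, smul_smul, inv_mul_cancel₀ (hI.ne _), one_smul]
    · intro l _ hl
      rw [if_neg, zero_smul]
      intro h'
      exact hl (h'.trans (hI.inv k))
    · intro h'
      exact absurd (Finset.mem_univ _) h'
  have hU : Units R M o e := by
    refine ⟨?_, ?_, ?_, ?_⟩
    · intro i k j l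
      apply ModuleCat.hom_ext
      refine LinearMap.ext fun x => ?_
      rw [ModuleCat.hom_comp, LinearMap.comp_apply, he, he, map_smul]
      split_ifs with h
      · subst h
        rw [he]
        simp
      · have : v.coord j (v k) = 0 := by
          rw [Module.Basis.coord_apply, Module.Basis.repr_self, Finsupp.single_apply, if_neg h]
        rw [this]
        simp
    · apply ModuleCat.hom_ext
      refine LinearMap.ext fun x => ?_
      rw [ModuleCat.hom_sum, LinearMap.sum_apply]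
      simp only [he]
      exact v.sum_repr x
    · apply ModuleCat.hom_ext
      refine v.ext fun j => ?_
      rw [hs, ModuleCat.hom_sum, LinearMap.sum_apply, Finset.sum_eq_single j]
      · rw [ModuleCat.hom_smul, LinearMap.smul_apply, he]
        simp
      · intro i _ hij
        rw [ModuleCat.hom_smul, LinearMap.smul_apply, he]
        have : v.coord i (v j) = 0 := by
          rw [Module.Basis.coord_apply, Module.Basis.repr_self, Finsupp.single_apply,
            if_neg hij.symm]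
        rw [this]
        simp
      · intro h; exact absurd (Finset.mem_univ j) h
    · intro i k
      change LinearMap.trace K (R.H.obj M) ((v.coord i).smulRight (v k)) = _
      rw [LinearMap.trace_smulRight, Module.Basis.coord_apply, Module.Basis.repr_self,
        Finsupp.single_apply]
      simp only [eq_comm]
  refine ⟨ι, inferInstance, inferInstance, o, σ, γ, N, e, hI, hU, ?_⟩
  have key : fb R b ≫ fc R c = ∑ i, ∑ k, (e i k ⊗ₘ
      ModuleCat.ofHom ((γ i * (γ (σ k))⁻¹) • (e (σ i) (σ k)).hom)) := by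
    apply ModuleCat.hom_ext
    apply (v.tensorProduct v).ext
    rintro ⟨a, a'⟩
    rw [Module.Basis.tensorProduct_apply]
    have hL : (fb R b ≫ fc R c).hom (v a ⊗ₜ[K] v a') =
        (if a' = σ a then γ a else 0) • ∑ k, v k ⊗ₜ[K] ((γ (σ k))⁻¹ • v (σ k)) := by
      have e1 : (fb R b ≫ fc R c).hom (v a ⊗ₜ[K] v a') =
          (fc R c).hom ((fb R b).hom (v a ⊗ₜ[K] v a')) := rfl
      rw [e1, fb_tmul R b φ, map_smul, hy1, hB]
      simp only [hy]
    have hR : (∑ i, ∑ k, (e i k ⊗ₘ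
      ModuleCat.ofHom ((γ i * (γ (σ k))⁻¹) • (e (σ i) (σ k)).hom))).hom (v a ⊗ₜ[K] v a') =
        ∑ i, ∑ k, (if a = i then v k else 0) ⊗ₜ[K]
          ((γ i * (γ (σ k))⁻¹) • (if a' = σ i then v (σ k) else 0)) := by
      rw [ModuleCat.hom_sum, LinearMap.sum_apply]
      refine Finset.sum_congr rfl fun i _ => ?_
      rw [ModuleCat.hom_sum, LinearMap.sum_apply]
      refine Finset.sum_congr rfl fun k _ => ?_
      refine (ModuleCat.MonoidalCategory.tensorHom_tmul _ _ _ _).trans ?_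
      rw [← hev i k a, ← hev (σ i) (σ k) a']
      rfl
    refine hL.trans (Eq.trans ?_ hR.symm)
    rw [Finset.smul_sum]
    symm
    rw [Finset.sum_eq_single a]
    · refine Finset.sum_congr rfl fun k _ => ?_
      symm
      rw [if_pos rfl]
      by_cases h : a' = σ a
      · rw [if_pos h, if_pos h, mul_smul, TensorProduct.tmul_smul, TensorProduct.tmul_smul,
          TensorProduct.tmul_smul]
      · rw [if_neg h, if_neg h, zero_smul, smul_zero, TensorProduct.tmul_zero]
    · intro i _ hi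
      refine Finset.sum_eq_zero fun k _ => ?_
      rw [if_neg (Ne.symm hi), TensorProduct.zero_tmul]
    · intro h
      exact absurd (Finset.mem_univ _) h
  unfold Re
  rw [map_bc, key]
  simp only [Preadditive.sum_comp, Preadditive.comp_sum]
  rfl

end Pool.Agent.W2helper6.SG
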