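import Pool.Agent.W2helper37.SG.Stm3
import Pool.Agent.W2helper82.SG.Tra

/-!
# Project SG part 2, piece TAF: transposes with respect to the form are algebraic
-/

set_option autoImplicit false
set_option linter.unusedSectionVars false
set_option linter.unusedSimpArgs false
set_option backward.isDefEq.respectTransparency false
set_option backward.defeqAttrib.useBackward true

open CategoryTheory Limits MonoidalCategory
open Pool.Agent.Y112.SR Pool.Agent.Y112.KD Pool.Agent.Y112.SC
open Pool.Agent.W2helper37.SG Pool.Agent.W2helper82.SG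

namespace Pool.Agent.W2helper6.SG

universe v u w

lemma sg_mul_self (K : Type w) [Field K] (b : Bool) : sg K b * sg K b = 1 := by
  cases b <;> simp [sg]

theorem p_taf : P_TAF.{v, u, w} := by
  intro C _ _ _ _ _ _ _ _ K _ R M ι _ _ o σ γ N e hI U κ hκ f F hF
  have hK := R_charZero R
  refine ⟨ptr (M ◁ f ≫ κ), ?_⟩
  have hκ' : R.H.map κ = ∑ i, ∑ k, bx R (e i k)
      (ModuleCat.ofHom ((γ i * (γ (σ k))⁻¹) • (e (σ i) (σ k)).hom)) := hκ
  have h1 : ∀ i k, R.H.map f ≫ ModuleCat.ofHom ((γ i * (γ (σ k))⁻¹) • (e (σ i) (σ k)).hom) =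
      ∑ j with o j = o (σ i), (γ i * (γ (σ k))⁻¹ * F (σ i) j) • e j (σ k) := by
    intro i k
    have e1 : (ModuleCat.ofHom ((γ i * (γ (σ k))⁻¹) • (e (σ i) (σ k)).hom) :
        R.H.obj M ⟶ R.H.obj M) = (γ i * (γ (σ k))⁻¹) • e (σ i) (σ k) := rfl
    rw [e1, hF, Preadditive.sum_comp, Finset.sum_eq_single (σ i)]
    · rw [Preadditive.sum_comp]
      refine Finset.sum_congr rfl fun j _ => ?_
      rw [Linear.comp_smul, Linear.smul_comp, U.mul, if_pos rfl, smul_smul]
    · intro l _ hl
      rw [Preadditive.sum_comp]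
      refine Finset.sum_eq_zero fun j _ => ?_
      rw [Linear.comp_smul, Linear.smul_comp, U.mul, if_neg hl, smul_zero, smul_zero]
    · intro h
      exact absurd (Finset.mem_univ _) h
  have hpar : ∀ j k, e j k ≫ R.par M = sg K (o k) • e j k := by
    intro j k
    rw [U.par, Preadditive.comp_sum, Finset.sum_eq_single k]
    · rw [Linear.comp_smul, U.mul, if_pos rfl]
    · intro l _ hl
      rw [Linear.comp_smul, U.mul, if_neg (Ne.symm hl), smul_zero]
    · intro h
      exact absurd (Finset.mem_univ _) h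
  rw [← PT_map, Functor.map_comp, map_whiskerLeft_eq, hκ', Preadditive.comp_sum]
  have h2 : ∀ i, bx R (𝟙 (R.H.obj M)) (R.H.map f) ≫ ∑ k, bx R (e i k)
      (ModuleCat.ofHom ((γ i * (γ (σ k))⁻¹) • (e (σ i) (σ k)).hom)) =
      ∑ k, bx R (e i k) (∑ j with o j = o (σ i), (γ i * (γ (σ k))⁻¹ * F (σ i) j) • e j (σ k)) := by
    intro i
    rw [Preadditive.comp_sum]
    refine Finset.sum_congr rfl fun k _ => ?_
    rw [bx_comp, Category.id_comp, h1]
  rw [Finset.sum_congr rfl fun i _ => h2 i,
    PT_key R (fun k i => ∑ j with o j = o (σ i), (γ i * (γ (σ k))⁻¹ * F (σ i) j) • e j (σ k)),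
    Finset.sum_comm]
  refine Finset.sum_congr rfl fun l _ => ?_
  rw [Finset.sum_filter]
  refine Finset.sum_congr rfl fun i _ => ?_
  have h3 : LinearMap.trace K (R.H.obj M) ((∑ j with o j = o (σ i),
      (γ i * (γ (σ l))⁻¹ * F (σ i) j) • e j (σ l)) ≫ R.par M).hom =
      if o i = o l then γ i * (γ l)⁻¹ * F (σ i) (σ l) else 0 := by
    rw [Preadditive.sum_comp, ModuleCat.hom_sum, map_sum]
    have h4 : ∀ j, LinearMap.trace K (R.H.obj M)
        (((γ i * (γ (σ l))⁻¹ * F (σ i) j) • e j (σ l)) ≫ R.par M).hom =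
        if j = σ l then γ i * (γ (σ l))⁻¹ * F (σ i) (σ l) * sg K (o l) else 0 := by
      intro j
      rw [Linear.smul_comp, hpar, smul_smul, ModuleCat.hom_smul, map_smul, U.tr, hI.par]
      by_cases hj : j = σ l
      · rw [if_pos hj, if_pos hj, hj, smul_eq_mul, mul_one]
      · rw [if_neg hj, if_neg hj, smul_zero]
    rw [Finset.sum_congr rfl fun j _ => h4 j, Finset.sum_ite_eq', hI.sym]
    have hs : (sg K (o l) * γ l)⁻¹ * sg K (o l) = (γ l)⁻¹ := by
      have h5 : sg K (o l) ≠ 0 := fun h => by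
        have := sg_mul_self K (o l)
        rw [h, zero_mul] at this
        exact zero_ne_one this
      rw [mul_inv, mul_assoc, mul_comm (γ l)⁻¹, ← mul_assoc, inv_mul_cancel₀ h5, one_mul]
    by_cases h : o i = o l
    · rw [if_pos (by rw [Finset.mem_filter, hI.par, hI.par]; exact ⟨Finset.mem_univ _, h.symm⟩),
        if_pos h, ← hs]
      ring
    · rw [if_neg (fun h' => h (by
        rw [Finset.mem_filter, hI.par, hI.par] at h'
        exact h'.2.symm)), if_neg h]
  rw [h3]
  by_cases h : o i = o l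
  · rw [if_pos h, if_pos h]
  · rw [if_neg h, if_neg h, zero_smul]

end Pool.Agent.W2helper6.SG
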